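import Pool.Agent.helper1.FI.SpecQ2

/-!
# Project fi (MP_baa4d7_al), block Q2: HTI, heights
-/

set_option autoImplicit false

namespace Pool.Agent.FI

open Pool.Agent.helper58.DC Pool.Agent.DI Pool.Agent.GR Pool.Agent.OB

/-- `|C| * |T : C| = |T|`. -/
theorem HTI_card {G : Type} [Group G] {C T : Subgroup G} (h : C ≤ T) :
    Nat.card C * C.relIndex T = Nat.card T := by
  have h1 := Subgroup.relIndex_mul_relIndex ⊥ C T bot_le h
  rwa [Subgroup.relIndex_bot_left, Subgroup.relIndex_bot_left] at h1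

theorem HTI_pval {p n d k c t r a : ℕ} (hp : p.Prime) (hn : n ≠ 0) (hd : d ≠ 0) (hk : ¬ p ∣ k)
    (hc : n * d * k = c) (hr : ¬ p ∣ r) (ht : c * r = t) (ha : a = d * n) :
    padicValNat p t = padicValNat p a := by
  haveI : Fact p.Prime := ⟨hp⟩
  have hk0 : k ≠ 0 := fun h => hk (h ▸ dvd_zero p)
  have hr0 : r ≠ 0 := fun h => hr (h ▸ dvd_zero p)
  have h1 : padicValNat p k = 0 := padicValNat.eq_zero_of_not_dvd hk
  have h2 : padicValNat p r = 0 := padicValNat.eq_zero_of_not_dvd hr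
  rw [← ht, ← hc, ha, padicValNat.mul (by positivity) hr0, padicValNat.mul (by positivity) hk0,
    padicValNat.mul hn hd, padicValNat.mul hd hn, h1, h2]
  ring

theorem HTI_ev {G : Type} [Group G] [Finite G] {p : ℕ} {M : Ideal (integralClosure ℤ ℂ)}
    {D : Subgroup G} {θ ψ j : G → ℂ} (hgood : Good p M D (cz D) θ) (hθ : θ ∈ Bl M (cz D) θ)
    {m : (G → ℂ) → ℕ} (hm : ∀ c ∈ cz D, ev ψ j c = ∑ᶠ ψ' ∈ Bl M (cz D) θ, (m ψ' : ℂ) * ψ' c) :
    ∃ N : ℕ, ∀ y ∈ cz D, PReg p y → ev ψ j y = N * θ y := by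
  classical
  have hfin : (Bl M (cz D) θ).Finite := (IrrOn_fin (cz D)).subset fun φ h => h.1
  refine ⟨∑ φ ∈ hfin.toFinset, m φ, fun y hy hyr => ?_⟩
  have h1 : ∑ᶠ ψ' ∈ Bl M (cz D) θ, (m ψ' : ℂ) * ψ' y =
      ∑ᶠ ψ' ∈ Bl M (cz D) θ, (m ψ' : ℂ) * θ y :=
    finsum_mem_congr rfl fun φ hφ => by rw [hgood.reg φ hφ θ hθ y hy hyr]
  rw [hm y hy, h1, finsum_mem_eq_finite_toFinset_sum _ hfin, ← Finset.sum_mul]
  push_cast
  rfl

theorem HTI (hQH0 : QH0_stmt) (hQH1 : QH1_stmt) (hQMB : QMB_stmt) (hQCG : QCG_stmt)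
    (hQUN : QUN_stmt) (hBET : BET_stmt) : HTI_stmt := by
  intro p M hS G _ _ D x θ χ hR K hK j hj hinv hej hcong ψ hψ
  haveI : Fact p.Prime := ⟨hS.pr⟩
  obtain ⟨⟨w, hw, hwr, hwM⟩, ⟨n, k, hn, hnk, hpk⟩, hgood⟩ := hQCG p M hS G D x θ χ hR
  have hθ : θ ∈ Bl M (cz D) θ := ⟨hR.th, SB.refl _ _⟩
  obtain ⟨m, hm⟩ := hQMB G (cz D) K hK j hj.sup hj.idem hinv (Bl M (cz D) θ) (fun φ h => h.1) hej
    ψ hψ.1
  obtain ⟨N, hN⟩ := HTI_ev hgood hθ hm
  obtain ⟨d, hd0, hd, -⟩ := IrrOn_pos hψ.1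
  have hev1 : ev ψ j 1 = N * θ 1 := by
    refine hN 1 (one_mem _) ?_
    unfold PReg
    rw [orderOf_one]
    exact hS.pr.one_lt.ne' ∘ Nat.dvd_one.1
  have hevw : ev ψ j w = N * θ w := hN w hw hwr
  -- the two values of the central characters
  have h0 := hQH0 G D K w (hK hw) j hj.sup ψ hψ.1
  obtain ⟨hCF, hint, h1⟩ := hQH1 p M hS G D K hR.dfa.pgrp hR.com hK θ hR.th hgood w hw hwr j
    hj.sup hj.int hinv hcong
  have h2 := SBIb hS hψ.2 hCF hint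
  have h3 := h2.add hS h1
  -- nonvanishing
  have hθ1 : θ 1 ≠ 0 := IrrOn_ne hR.th
  have hn0 : n ≠ 0 := by
    rintro rfl
    rw [Nat.cast_zero] at hn
    exact hθ1 hn
  have hcD : Nat.card D ≠ 0 := Nat.card_pos.ne'
  have hcK : Nat.card K ≠ 0 := Nat.card_pos.ne'
  have hθw : θ w ≠ 0 := fun h => hwM (h ▸ InM.zero hS)
  have hθwi : IntAt M (θ w)⁻¹ :=
    (IntAt.of_isIntegral hS (IrrOn_int hR.th w)).inv hS hwM
  set T : Subgroup G := TT M D θ ⊓ K with hT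
  have hCT : cz D ≤ T := le_inf cz_le_TT hK
  have hcT := HTI_card hCT
  have hTT : ¬ p ∣ (cz D).relIndex T := by
    intro h
    refine hBET p M hS G D x θ χ hR (h.trans ?_)
    have h4 := Subgroup.relIndex_mul_relIndex (cz D) T (TT M D θ) hCT inf_le_left
    exact Dvd.intro _ h4
  have hval : padicValNat p (Nat.card T) = padicValNat p (Nat.card D * n) :=
    HTI_pval hS.pr hn0 hcD hpk hnk hTT hcT rfl
  have hT0 : Nat.card T ≠ 0 := Nat.card_pos.ne'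
  obtain ⟨hr2, hr2M⟩ := (hQUN p M hS (Nat.card T) (Nat.card D * n) hT0
    (mul_ne_zero hcD hn0)).2 hval
  -- the difference of the two ratios
  have hDc : (Nat.card D : ℂ) ≠ 0 := Nat.cast_ne_zero.2 hcD
  have hnc : (n : ℂ) ≠ 0 := Nat.cast_ne_zero.2 hn0
  have hdc : (d : ℂ) ≠ 0 := Nat.cast_ne_zero.2 hd0.ne'
  have h5 : InM M (((Nat.card K * N : ℕ) : ℂ) / ((Nat.card D * d : ℕ) : ℂ) -
      (Nat.card T : ℂ) / ((Nat.card D * n : ℕ) : ℂ)) := by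
    have h6 := InM.mul_right hS h3 hθwi
    have h7 : (cc ψ (trL K D (fun y => j (y * w⁻¹))) - cc θ (trL K D (fun y => j (y * w⁻¹))) +
        (cc θ (trL K D (fun y => j (y * w⁻¹))) - (Nat.card T : ℂ) / Nat.card D * (θ w / θ 1))) *
        (θ w)⁻¹ = ((Nat.card K * N : ℕ) : ℂ) / ((Nat.card D * d : ℕ) : ℂ) -
      (Nat.card T : ℂ) / ((Nat.card D * n : ℕ) : ℂ) := by
      rw [sub_add_sub_cancel, h0, hevw, hd, hn]
      push_cast
      field_simp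
    rwa [h7] at h6
  have hr1 : IntAt M (((Nat.card K * N : ℕ) : ℂ) / ((Nat.card D * d : ℕ) : ℂ)) := by
    have h8 := h5.intAt.add hS hr2
    rwa [sub_add_cancel] at h8
  have hr1M : ¬ InM M (((Nat.card K * N : ℕ) : ℂ) / ((Nat.card D * d : ℕ) : ℂ)) := by
    intro h9
    have h10 := h9.sub hS h5
    rw [sub_sub_cancel] at h10
    exact hr2M h10
  have hN0 : N ≠ 0 := by
    rintro rfl
    rw [mul_zero, Nat.cast_zero, zero_div] at hr1M
    exact hr1M (InM.zero hS)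
  have h11 := (hQUN p M hS (Nat.card K * N) (Nat.card D * d) (mul_ne_zero hcK hN0)
    (mul_ne_zero hcD hd0.ne')).1 ⟨hr1, hr1M⟩
  rw [padicValNat.mul hcK hN0, padicValNat.mul hcD hd0.ne'] at h11
  exact ⟨N, d, hN0, hd0.ne', hd, hev1, h11⟩

end Pool.Agent.FI
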